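import Pool.Agent.H56.UD.DB

/-!
# THEOREM UD (MP_8f2e1c), chapter PB: square roots of univalent functions on the unit disc
-/

set_option autoImplicit false

open Filter Topology Metric Set

namespace Pool.Agent.H55.PB

/-- logarithms of zero free functions -/
theorem ex_log {g : ℂ → ℂ} (hg : DifferentiableOn ℂ g (ball 0 1)) (hz : ∀ u ∈ ball (0 : ℂ) 1, g u ≠ 0) :
    ∃ h : ℂ → ℂ, DifferentiableOn ℂ h (ball 0 1) ∧ ∀ u ∈ ball (0 : ℂ) 1, Complex.exp (h u) = g u := by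
  have h1 : DifferentiableOn ℂ (fun u => deriv g u / g u) (ball 0 1) :=
    (hg.deriv isOpen_ball).div hg hz
  obtain ⟨h, hh0, hh⟩ := h1.isExactOn_ball.with_val_at 0 (Complex.log (g 0))
  have h0 : (0 : ℂ) ∈ ball (0 : ℂ) 1 := mem_ball_self one_pos
  have hhd : DifferentiableOn ℂ h (ball 0 1) :=
    fun u hu => (hh u hu).differentiableAt.differentiableWithinAt
  refine ⟨h, hhd, ?_⟩
  have h2 : ∀ u ∈ ball (0 : ℂ) 1, HasDerivAt (fun u => g u * Complex.exp (-h u)) 0 u := by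
    intro u hu
    have e1 : HasDerivAt g (deriv g u) u :=
      (hg.differentiableAt (isOpen_ball.mem_nhds hu)).hasDerivAt
    have e2 := e1.mul ((hh u hu).neg.cexp)
    have e3 : g u * (deriv g u / g u) = deriv g u := mul_div_cancel₀ _ (hz u hu)
    have e4 : deriv g u * Complex.exp (-h u)
        + g u * (Complex.exp (-h u) * -(deriv g u / g u)) = 0 := by
      linear_combination (-Complex.exp (-h u)) * e3
    exact e4 ▸ e2
  have h3 : ∀ u ∈ ball (0 : ℂ) 1, g u * Complex.exp (-h u) = 1 := by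
    intro u hu
    have e1 := (convex_ball (0 : ℂ) 1).is_const_of_fderivWithin_eq_zero (𝕜 := ℂ)
      (f := fun u => g u * Complex.exp (-h u))
      (fun x hx => (h2 x hx).differentiableAt.differentiableWithinAt)
      (fun x hx => by
        rw [fderivWithin_of_isOpen isOpen_ball hx]
        have := (h2 x hx).hasFDerivAt.fderiv
        rw [this]
        ext
        simp) hu h0
    rw [e1]
    show g 0 * Complex.exp (-h 0) = 1
    rw [hh0, Complex.exp_neg, Complex.exp_log (hz 0 h0)]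
    exact mul_inv_cancel₀ (hz 0 h0)
  intro u hu
  have := h3 u hu
  rw [Complex.exp_neg] at this
  have hne := Complex.exp_ne_zero (h u)
  field_simp at this
  exact this.symm

/-- square roots of zero free functions -/
theorem ex_sqrt {g : ℂ → ℂ} (hg : DifferentiableOn ℂ g (ball 0 1)) (hz : ∀ u ∈ ball (0 : ℂ) 1, g u ≠ 0) :
    ∃ σ : ℂ → ℂ, DifferentiableOn ℂ σ (ball 0 1) ∧ ∀ u ∈ ball (0 : ℂ) 1, σ u ≠ 0 ∧ σ u ^ 2 = g u := by
  obtain ⟨h, hd, he⟩ := ex_log hg hz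
  refine ⟨fun u => Complex.exp (h u / 2), (hd.div_const 2).cexp, fun u hu => ⟨Complex.exp_ne_zero _, ?_⟩⟩
  rw [← he u hu, ← Complex.exp_nat_mul]
  congr 1
  push_cast
  ring

/-- derivatives of univalent functions do not vanish -/
theorem der1 {φ : ℂ → ℂ} (hd : DifferentiableOn ℂ φ (ball 0 1)) (hi : InjOn φ (ball 0 1)) {v : ℂ}
    (hv : v ∈ ball (0 : ℂ) 1) : deriv φ v ≠ 0 := by
  have hv1 : ‖v‖ < 1 := mem_ball_zero_iff.1 hv
  have hsub : ball v (1 - ‖v‖) ⊆ ball (0 : ℂ) 1 := by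
    intro w hw
    rw [mem_ball, dist_eq_norm] at hw
    rw [mem_ball_zero_iff]
    have := norm_add_le (w - v) v
    rw [sub_add_cancel] at this
    linarith
  have h1 := Pool.Agent.H80.AJ.deriv_ne (g := φ) (c := v) (R := 1 - ‖v‖) (by linarith) (hd.mono hsub) (hi.mono hsub)
    (w := v) (mem_closedBall_self (by linarith))
  exact norm_pos_iff.1 h1

/-- no zero: a square -/
theorem ex_nofac {φ : ℂ → ℂ} (hd : DifferentiableOn ℂ φ (ball 0 1)) {w : ℂ}
    (hw : w ∉ φ '' ball 0 1) :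
    ∃ σ : ℂ → ℂ, DifferentiableOn ℂ σ (ball 0 1) ∧ ∀ v ∈ ball (0 : ℂ) 1, σ v ≠ 0 ∧ σ v ^ 2 = φ v - w := by
  refine ex_sqrt (hd.sub_const w) fun u hu he => hw ⟨u, hu, ?_⟩
  linear_combination he

/-- a zero: a square times the linear factor -/
theorem ex_fac {φ : ℂ → ℂ} (hd : DifferentiableOn ℂ φ (ball 0 1)) (hi : InjOn φ (ball 0 1)) {v0 : ℂ}
    (hv0 : v0 ∈ ball (0 : ℂ) 1) :
    ∃ σ : ℂ → ℂ, DifferentiableOn ℂ σ (ball 0 1) ∧
      ∀ v ∈ ball (0 : ℂ) 1, σ v ≠ 0 ∧ φ v - φ v0 = (v - v0) * σ v ^ 2 := by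
  have h1 : DifferentiableOn ℂ (dslope φ v0) (ball 0 1) :=
    (Complex.differentiableOn_dslope (isOpen_ball.mem_nhds hv0)).2 hd
  have h2 : ∀ u ∈ ball (0 : ℂ) 1, dslope φ v0 u ≠ 0 := by
    intro u hu
    by_cases huv : u = v0
    · rw [huv, dslope_same]
      exact der1 hd hi hv0
    · rw [dslope_of_ne _ huv, slope_def_field]
      refine div_ne_zero (fun h0 => huv (hi hu hv0 (sub_eq_zero.1 h0))) (sub_ne_zero.2 huv)
  obtain ⟨σ, sd, hs⟩ := ex_sqrt h1 h2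
  refine ⟨σ, sd, fun v hv => ⟨(hs v hv).1, ?_⟩⟩
  rw [(hs v hv).2, ← smul_eq_mul, sub_smul_dslope]

/-- a zero: a square times the Moebius factor -/
theorem ex_fac2 {φ : ℂ → ℂ} (hd : DifferentiableOn ℂ φ (ball 0 1)) (hi : InjOn φ (ball 0 1)) {v0 : ℂ}
    (hv0 : v0 ∈ ball (0 : ℂ) 1) :
    ∃ σ : ℂ → ℂ, DifferentiableOn ℂ σ (ball 0 1) ∧
      ∀ v ∈ ball (0 : ℂ) 1, σ v ≠ 0 ∧ φ v - φ v0 = (v - v0) / (1 - (starRingEnd ℂ) v0 * v) * σ v ^ 2 := by
  have h1 : DifferentiableOn ℂ (dslope φ v0) (ball 0 1) :=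
    (Complex.differentiableOn_dslope (isOpen_ball.mem_nhds hv0)).2 hd
  have h3 : ∀ u ∈ ball (0 : ℂ) 1, 1 - (starRingEnd ℂ) v0 * u ≠ 0 := by
    intro u hu h0
    rw [mem_ball_zero_iff] at hu hv0
    have h1 : ‖(starRingEnd ℂ) v0 * u‖ = 1 := by
      have : (starRingEnd ℂ) v0 * u = 1 := by linear_combination -h0
      rw [this]; simp
    rw [norm_mul, RCLike.norm_conj] at h1
    nlinarith [norm_nonneg v0, norm_nonneg u]
  have h2 : ∀ u ∈ ball (0 : ℂ) 1, (1 - (starRingEnd ℂ) v0 * u) * dslope φ v0 u ≠ 0 := by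
    intro u hu
    refine mul_ne_zero (h3 u hu) ?_
    by_cases huv : u = v0
    · rw [huv, dslope_same]
      exact der1 hd hi hv0
    · rw [dslope_of_ne _ huv, slope_def_field]
      refine div_ne_zero (fun h0 => huv (hi hu hv0 (sub_eq_zero.1 h0))) (sub_ne_zero.2 huv)
  obtain ⟨σ, sd, hs⟩ := ex_sqrt (g := fun u => (1 - (starRingEnd ℂ) v0 * u) * dslope φ v0 u)
    (((differentiableOn_const _).sub ((differentiableOn_const _).mul differentiableOn_id)).mul h1) h2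
  refine ⟨σ, sd, fun v hv => ⟨(hs v hv).1, ?_⟩⟩
  have h4 := h3 v hv
  have h5 : (v - v0) * dslope φ v0 v = φ v - φ v0 := by
    rw [← smul_eq_mul, sub_smul_dslope]
  rw [(hs v hv).2, ← h5, div_mul_eq_mul_div, eq_div_iff h4]
  ring

end Pool.Agent.H55.PB
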