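import Pool.Agent.H55.PB.Ty
import Pool.Agent.H55.PB.Sq

/-!
# THEOREM UD (MP_8f2e1c), chapter PB: uniqueness of the lifts of the collar
-/

set_option autoImplicit false

open Filter Topology Metric Set

namespace Pool.Agent.H55.PB

open Pool.Agent.H56.UD

variable {f : ℂ → ℂ} {U J P Cr : Set ℂ} {δ : ℝ} {η : ℂ → ℂ → ℂ} {ρ : ℝ}
variable {θ C r : ℝ} {x : ℂ} {ψ q : ℂ → ℂ} {k : ℕ}

theorem lder (h : PS f U J P Cr δ η ρ) (hθ : 0 < θ) (hG : GD θ C P x r ψ) (hq : Lf (f^[k]) (dm f U J δ k) θ ψ q) {ζ : ℂ}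
    (hζ : ζ ∈ Qc θ) : deriv (f^[k]) (q ζ) ≠ 0 := by
  intro h0
  have h1 := der_lift h (Qc_open θ) hq.diff (H := fun ζ => ψ (Complex.exp ζ)) hq.val hζ
  rw [h0, zero_mul] at h1
  have h2 : Complex.exp ζ ∈ ball (0 : ℂ) 1 := mem_ball_zero_iff.2 (Qc_norm hθ hζ).2
  have h3 : HasDerivAt (fun ζ => ψ (Complex.exp ζ)) (deriv ψ (Complex.exp ζ) * Complex.exp ζ) ζ :=
    HasDerivAt.comp ζ (hG.diff.differentiableAt (isOpen_ball.mem_nhds h2)).hasDerivAt (Complex.hasDerivAt_exp ζ)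
  rw [h3.deriv] at h1
  exact (mul_ne_zero (der1 hG.diff hG.inj h2) (Complex.exp_ne_zero ζ)) h1.symm

/-- uniqueness -/
theorem luniq (h : PS f U J P Cr δ η ρ) (hθ : 0 < θ) (hG : GD θ C P x r ψ) (hq : Lf (f^[k]) (dm f U J δ k) θ ψ q)
    {S : Set ℂ} (hS : IsPreconnected S) (hSQ : S ⊆ Qc θ) {G : ℂ → ℂ} (hGc : ContinuousOn G S)
    (hGv : ∀ u ∈ S, G u ∈ dm f U J δ k ∧ f^[k] (G u) = ψ (Complex.exp u)) {ζ0 : ℂ} (h0 : ζ0 ∈ S) (he : q ζ0 = G ζ0) :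
    EqOn q G S := by
  refine lift_unique h hS (hq.diff.continuousOn.mono hSQ) hGc (fun u hu => (hq.val u (hSQ hu)).1)
    (fun u hu => (hGv u hu).1) (fun u hu => ?_) (fun u hu => lder h hθ hG hq (hSQ hu)) h0 he
  rw [(hq.val u (hSQ hu)).2, (hGv u hu).2]

/-- closing at one point -/
theorem per1 (h : PS f U J P Cr δ η ρ) (hθ : 0 < θ) (hG : GD θ C P x r ψ) (hq : Lf (f^[k]) (dm f U J δ k) θ ψ q)
    {m : ℕ} {ζ0 : ℂ} (h0 : ζ0 ∈ Qc θ) (h1 : ζ0 + m * (2 * Real.pi * Complex.I) ∈ Qc θ)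
    (he : q (ζ0 + m * (2 * Real.pi * Complex.I)) = q ζ0) : Cls θ m q := by
  have hcv : Convex ℝ (Qc θ ∩ (fun ζ => ζ + m * (2 * Real.pi * Complex.I)) ⁻¹' Qc θ) :=
    (Qc_convex θ).inter ((Qc_convex θ).translate_preimage_left _)
  have hu := luniq h hθ hG hq (G := fun ζ => q (ζ + m * (2 * Real.pi * Complex.I))) hcv.isPreconnected inter_subset_left
    (hq.diff.continuousOn.comp (by fun_prop) fun ζ hζ => hζ.2) (fun ζ hζ => ?_) ⟨h0, h1⟩ he.symm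
  · intro ζ hζ hζ2
    exact (hu ⟨hζ, hζ2⟩).symm
  · have h2 := hq.val _ hζ.2
    have h3 := exp_int ζ m
    push_cast at h3
    refine ⟨h2.1, ?_⟩
    rw [h2.2, h3]

/-- the inner part of the rectangle -/
def Qs (θ ρ2 : ℝ) : Set ℂ := Qc θ ∩ {ζ | ζ.re < Real.log ρ2}

theorem Qs_convex (θ ρ2 : ℝ) : Convex ℝ (Qs θ ρ2) := (Qc_convex θ).inter (convex_halfSpace_re_lt _)

theorem Qs_iff {ρ2 : ℝ} (h : 0 < ρ2) {ζ : ℂ} : ζ ∈ Qs θ ρ2 ↔ ζ ∈ Qc θ ∧ ‖Complex.exp ζ‖ < ρ2 := by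
  unfold Qs
  rw [mem_inter_iff, mem_ofPred_eq, Complex.norm_exp, Real.lt_log_iff_exp_lt h]

/-- the base points -/
theorem base (hθ : 0 < θ) {ρ2 : ℝ} (h1 : θ < ρ2) (h2 : ρ2 < 1) :
    ∃ ζ0 : ℂ, ζ0 ∈ Qs θ ρ2 ∧ ζ0 + ((1 : ℕ) : ℂ) * (2 * Real.pi * Complex.I) ∈ Qs θ ρ2 ∧
      ζ0 + ((2 : ℕ) : ℂ) * (2 * Real.pi * Complex.I) ∈ Qs θ ρ2 := by
  have hπ := Real.pi_pos
  have h3 := Real.log_lt_log hθ h1
  have h4 : Real.log ρ2 < 0 := Real.log_neg (lt_trans hθ h1) h2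
  have key : ∀ t : ℝ, |t| < 6 * Real.pi →
      (((Real.log θ + Real.log ρ2) / 2 : ℝ) : ℂ) + t * Complex.I ∈ Qs θ ρ2 := by
    intro t ht
    refine ⟨?_, ?_⟩
    · rw [Qc_shift, Complex.ofReal_re, Complex.ofReal_im, zero_add]
      exact ⟨by linarith, by linarith, ht⟩
    · rw [mem_ofPred_eq]
      have : ((((Real.log θ + Real.log ρ2) / 2 : ℝ) : ℂ) + t * Complex.I).re = (Real.log θ + Real.log ρ2) / 2 := by simp
      rw [this]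
      linarith
  refine ⟨(((Real.log θ + Real.log ρ2) / 2 : ℝ) : ℂ), ?_, ?_, ?_⟩
  · have := key 0 (by rw [abs_zero]; positivity)
    simpa using this
  · have := key (2 * Real.pi) (by rw [abs_of_pos (by positivity)]; linarith)
    have e : ((1 : ℕ) : ℂ) * (2 * Real.pi * Complex.I) = ((2 * Real.pi : ℝ) : ℂ) * Complex.I := by push_cast; ring
    rw [e]
    exact this
  · have := key (4 * Real.pi) (by rw [abs_of_pos (by positivity)]; linarith)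
    have e : ((2 : ℕ) : ℂ) * (2 * Real.pi * Complex.I) = ((4 * Real.pi : ℝ) : ℂ) * Complex.I := by push_cast; ring
    rw [e]
    exact this

/-- small units: the inner part is in a small disc with centre in `J` -/
theorem small (h : PS f U J P Cr δ η ρ) (hθ : 0 < θ) (hθ1 : θ < 1) (hC : 1 ≤ C) {ρ2 ε : ℝ} (h1 : θ < ρ2)
    (h2 : ρ2 < 1) (hε : 0 < ε) :
    ∃ δ2 : ℝ, 0 < δ2 ∧ ∀ (k : ℕ) (x : ℂ) (r : ℝ) (ψ φ β s : ℂ → ℂ) (n : ℕ), x ∈ P → 0 < r → r < δ2 →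
      GD θ C P x r ψ → Ty θ n β s → PU (f^[k]) (dm f U J δ k) θ ψ φ β →
      ∃ y ∈ J, ∀ v ∈ ball (0 : ℂ) 1, ‖β v‖ < ρ2 → φ v ∈ ball y ε := by
  have hρ0 : 0 < ρ2 := lt_trans hθ h1
  have hx1 : (1 - ρ2 ^ 2) ^ 2 ≤ 1 := by
    have : 0 < 1 - ρ2 ^ 2 := by nlinarith
    nlinarith [sq_nonneg ρ2]
  have hx0 : 0 < (1 - ρ2 ^ 2) ^ 2 := by
    have : 0 < 1 - ρ2 ^ 2 := by nlinarith
    positivity
  have hle : ρ2 ≤ 1 - (1 - ρ2 ^ 2) ^ 2 / 16 := by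
    have e1 : (1 - ρ2 ^ 2) ^ 2 = (1 - ρ2) * ((1 - ρ2) * (1 + ρ2) ^ 2) := by ring
    have e2 : (1 - ρ2) * (1 + ρ2) ^ 2 ≤ 16 := by
      have : (1 + ρ2) ^ 2 ≤ 4 := by nlinarith
      have h3 : 0 ≤ (1 + ρ2) ^ 2 := sq_nonneg _
      nlinarith
    have e3 : (1 - ρ2 ^ 2) ^ 2 ≤ (1 - ρ2) * 16 := by
      rw [e1]
      exact mul_le_mul_of_nonneg_left e2 (by linarith)
    linarith
  obtain ⟨δ2, hδ2, hsh⟩ := sh2 h hθ hθ1 hC (ρ0 := 1 - (1 - ρ2 ^ 2) ^ 2 / 16) (ε := ε) (by linarith) (by linarith) hε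
  refine ⟨δ2, hδ2, fun k x r ψ φ β s n hx hr hrδ hG hT hP => ?_⟩
  obtain ⟨-, hs⟩ := hsh k x r ψ φ β hx hr hrδ hG hP
  obtain ⟨u0, hu0, hux⟩ := hG.inn (mem_ball_self (by positivity : 0 < r / C))
  rw [mem_ball_zero_iff] at hu0
  have hsub : closedBall (0 : ℂ) (1 - (1 - ρ2 ^ 2) ^ 2 / 16) ⊆ ball 0 1 := closedBall_subset_ball (by linarith)
  have hv0 : ∃ v ∈ closedBall (0 : ℂ) (1 - (1 - ρ2 ^ 2) ^ 2 / 16), β v = u0 := by
    rcases hT with ⟨-, ht, -⟩ | ⟨-, α, hα, rfl, -⟩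
    · refine ⟨u0, ?_, ht u0⟩
      rw [mem_closedBall_zero_iff]
      linarith
    · obtain ⟨v, hv, hv2⟩ := mob_pre hρ0 h2 (α := α) (u := u0) (by linarith) (by linarith)
      exact ⟨v, by rw [mem_closedBall_zero_iff]; exact hv, hv2⟩
  have hin : ∀ v ∈ ball (0 : ℂ) 1, ‖β v‖ < ρ2 → v ∈ closedBall (0 : ℂ) (1 - (1 - ρ2 ^ 2) ^ 2 / 16) := by
    intro v hv hv2
    rw [mem_closedBall_zero_iff]
    rcases hT with ⟨-, ht, -⟩ | ⟨-, α, hα, rfl, -⟩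
    · rw [ht] at hv2
      linarith
    · obtain ⟨v', hv', hv'2⟩ := mob_pre hρ0 h2 (α := α) (u := bet α v) (by linarith) hv2.le
      have hα1 : ‖α‖ < 1 := lt_of_le_of_lt hα hθ1
      rcases bet_eq hα1 (v := v) (v' := v') (mem_ball_zero_iff.1 hv) (by linarith) hv'2.symm with e | e
      · rw [← e]; exact hv'
      · rw [e, norm_neg] at hv'
        exact hv'
  obtain ⟨v0, hv0, hv02⟩ := hv0
  refine ⟨φ v0, ?_, fun v hv hv2 => ?_⟩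
  · refine J_back h (hP.val v0 (hsub hv0)).1 ?_
    rw [(hP.val v0 (hsub hv0)).2, hv02, hux]
    exact h.PJ hx
  · rw [mem_ball, dist_eq_norm]
    exact hs v (hin v hv hv2) v0 hv0

end Pool.Agent.H55.PB
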