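import Pool.Agent.H56.UD.DB

/-!
# THEOREM UD (MP_8f2e1c), chapter PB: the coordinate of the double cover of the collar
-/

set_option autoImplicit false

open Filter Topology Metric Set

namespace Pool.Agent.H55.PB

open Pool.Agent.H56.UD

/-- the maps of degree two -/
noncomputable def bet (α v : ℂ) : ℂ := (v ^ 2 + α) / (1 + (starRingEnd ℂ) α * v ^ 2)

/-- the logarithm of the Moebius correction -/
noncomputable def La (α ζ : ℂ) : ℂ :=
  Complex.log (1 - α * Complex.exp (-ζ)) - Complex.log (1 - (starRingEnd ℂ) α * Complex.exp ζ)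

/-- the coordinate -/
noncomputable def sa (α ζ : ℂ) : ℂ := Complex.exp ((ζ + La α ζ) / 2)

theorem Qc_open (θ : ℝ) : IsOpen (Qc θ) := by
  have h1 : IsOpen {ζ : ℂ | Real.log θ < ζ.re} := isOpen_lt continuous_const Complex.continuous_re
  have h2 : IsOpen {ζ : ℂ | ζ.re < 0} := isOpen_lt Complex.continuous_re continuous_const
  have h3 : IsOpen {ζ : ℂ | |ζ.im| < 6 * Real.pi} := isOpen_lt (continuous_abs.comp Complex.continuous_im) continuous_const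
  exact h1.inter (h2.inter h3)

theorem Qc_convex (θ : ℝ) : Convex ℝ (Qc θ) := by
  have h1 : Convex ℝ {ζ : ℂ | Real.log θ < ζ.re} := convex_halfSpace_re_gt _
  have h2 : Convex ℝ {ζ : ℂ | ζ.re < 0} := convex_halfSpace_re_lt _
  have h3 : Convex ℝ {ζ : ℂ | |ζ.im| < 6 * Real.pi} := by
    have : {ζ : ℂ | |ζ.im| < 6 * Real.pi} = {ζ : ℂ | -(6 * Real.pi) < ζ.im} ∩ {ζ : ℂ | ζ.im < 6 * Real.pi} := by
      ext ζ
      simp [abs_lt]
    rw [this]
    exact (convex_halfSpace_im_gt _).inter (convex_halfSpace_im_lt _)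
  exact h1.inter (h2.inter h3)

theorem Qc_norm {θ : ℝ} (hθ : 0 < θ) {ζ : ℂ} (h : ζ ∈ Qc θ) : θ < ‖Complex.exp ζ‖ ∧ ‖Complex.exp ζ‖ < 1 := by
  obtain ⟨h1, h2, -⟩ := h
  rw [Complex.norm_exp]
  exact ⟨by rwa [← Real.log_lt_iff_lt_exp hθ], Real.exp_lt_one_iff.2 h2⟩

/-- the two arguments of the logarithms -/
theorem arg_lt {θ : ℝ} (hθ : 0 < θ) {α ζ : ℂ} (hα : ‖α‖ ≤ θ) (h : ζ ∈ Qc θ) :
    ‖α * Complex.exp (-ζ)‖ < 1 ∧ ‖(starRingEnd ℂ) α * Complex.exp ζ‖ < 1 := by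
  obtain ⟨h1, h2⟩ := Qc_norm hθ h
  have h3 : 0 < ‖Complex.exp ζ‖ := lt_trans hθ h1
  constructor
  · rw [norm_mul, Complex.exp_neg, norm_inv, ← div_eq_mul_inv, div_lt_one h3]
    linarith
  · rw [norm_mul, RCLike.norm_conj]
    have := norm_nonneg α
    nlinarith

theorem slit_of {z : ℂ} (h : ‖z‖ < 1) : 1 - z ∈ Complex.slitPlane := by
  rw [Complex.mem_slitPlane_iff]
  left
  have h1 := (abs_le.1 (Complex.abs_re_le_norm z)).2
  simp only [Complex.sub_re, Complex.one_re]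
  linarith

theorem La_diff {θ : ℝ} (hθ : 0 < θ) {α : ℂ} (hα : ‖α‖ ≤ θ) : DifferentiableOn ℂ (La α) (Qc θ) := by
  intro ζ hζ
  obtain ⟨h1, h2⟩ := arg_lt hθ hα hζ
  have e1 : DifferentiableAt ℂ (fun ζ => 1 - α * Complex.exp (-ζ)) ζ := by fun_prop
  have e2 : DifferentiableAt ℂ (fun ζ => 1 - (starRingEnd ℂ) α * Complex.exp ζ) ζ := by fun_prop
  exact ((e1.clog (slit_of h1)).sub (e2.clog (slit_of h2))).differentiableWithinAt

theorem sa_diff {θ : ℝ} (hθ : 0 < θ) {α : ℂ} (hα : ‖α‖ ≤ θ) : DifferentiableOn ℂ (sa α) (Qc θ) :=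
  ((differentiableOn_id.add (La_diff hθ hα)).div_const 2).cexp

theorem exp_La {θ : ℝ} (hθ : 0 < θ) {α ζ : ℂ} (hα : ‖α‖ ≤ θ) (h : ζ ∈ Qc θ) :
    Complex.exp (La α ζ) = (1 - α * Complex.exp (-ζ)) / (1 - (starRingEnd ℂ) α * Complex.exp ζ) := by
  obtain ⟨h1, h2⟩ := arg_lt hθ hα h
  rw [La, Complex.exp_sub, Complex.exp_log (Complex.slitPlane_ne_zero (slit_of h1)),
    Complex.exp_log (Complex.slitPlane_ne_zero (slit_of h2))]

theorem sa_sq {θ : ℝ} (hθ : 0 < θ) {α ζ : ℂ} (hα : ‖α‖ ≤ θ) (h : ζ ∈ Qc θ) :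
    sa α ζ ^ 2 = (Complex.exp ζ - α) / (1 - (starRingEnd ℂ) α * Complex.exp ζ) := by
  have e1 : sa α ζ ^ 2 = Complex.exp ζ * Complex.exp (La α ζ) := by
    rw [sa, ← Complex.exp_nat_mul, ← Complex.exp_add]
    congr 1
    push_cast
    ring
  rw [e1, exp_La hθ hα h, Complex.exp_neg, mul_div_assoc']
  congr 1
  have := Complex.exp_ne_zero ζ
  field_simp

theorem sa_ne (α ζ : ℂ) : sa α ζ ≠ 0 := Complex.exp_ne_zero _

theorem den_ne {α v : ℂ} (hα : ‖α‖ < 1) (hv : ‖v‖ < 1) : 1 - (starRingEnd ℂ) α * v ≠ 0 := by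
  intro h0
  have h1 : ‖(starRingEnd ℂ) α * v‖ = 1 := by
    have : (starRingEnd ℂ) α * v = 1 := by linear_combination -h0
    rw [this]; simp
  rw [norm_mul, RCLike.norm_conj] at h1
  nlinarith [norm_nonneg α, norm_nonneg v]

theorem den_ne2 {α v : ℂ} (hα : ‖α‖ < 1) (hv : ‖v‖ < 1) : 1 + (starRingEnd ℂ) α * v ^ 2 ≠ 0 := by
  have h1 : ‖-v ^ 2‖ < 1 := by
    rw [norm_neg, norm_pow]
    nlinarith [norm_nonneg v]
  have h2 := den_ne hα h1
  intro h0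
  apply h2
  linear_combination h0

theorem one_ne {α : ℂ} (hα : ‖α‖ < 1) : (1 : ℂ) - (starRingEnd ℂ) α * α ≠ 0 := den_ne hα hα

theorem sa_lt {θ : ℝ} (hθ : 0 < θ) (hθ1 : θ < 1) {α ζ : ℂ} (hα : ‖α‖ ≤ θ) (h : ζ ∈ Qc θ) : sa α ζ ∈ ball (0 : ℂ) 1 := by
  rw [mem_ball_zero_iff]
  have h1 : ‖-α‖ < 1 := by rw [norm_neg]; linarith
  have h2 := mob_lt (α := -α) h1 (Qc_norm hθ h).2
  have h3 : ‖sa α ζ ^ 2‖ < 1 := by
    rw [sa_sq hθ hα h]
    simpa [sub_eq_add_neg, map_neg] using h2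
  rw [norm_pow] at h3
  by_contra hcon
  push Not at hcon
  nlinarith [norm_nonneg (sa α ζ)]

theorem bet_sa {θ : ℝ} (hθ : 0 < θ) (hθ1 : θ < 1) {α ζ : ℂ} (hα : ‖α‖ ≤ θ) (h : ζ ∈ Qc θ) :
    bet α (sa α ζ) = Complex.exp ζ := by
  have hα1 : ‖α‖ < 1 := lt_of_le_of_lt hα hθ1
  have hd := den_ne hα1 (Qc_norm hθ h).2
  have hd2 := den_ne2 hα1 (mem_ball_zero_iff.1 (sa_lt hθ hθ1 hα h))
  have h1 := one_ne hα1
  rw [bet, div_eq_iff hd2, sa_sq hθ hα h, mul_add, mul_one, ← mul_assoc, mul_div_assoc', ← sub_eq_zero]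
  have e : (Complex.exp ζ - α) / (1 - (starRingEnd ℂ) α * Complex.exp ζ) + α -
      (Complex.exp ζ + Complex.exp ζ * (starRingEnd ℂ) α * (Complex.exp ζ - α) /
        (1 - (starRingEnd ℂ) α * Complex.exp ζ)) =
      ((Complex.exp ζ - α) + (α - Complex.exp ζ) * (1 - (starRingEnd ℂ) α * Complex.exp ζ)
        - Complex.exp ζ * (starRingEnd ℂ) α * (Complex.exp ζ - α)) / (1 - (starRingEnd ℂ) α * Complex.exp ζ) := by
    rw [eq_div_iff hd]
    have e1 := div_mul_cancel₀ (Complex.exp ζ - α) hd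
    have e2 := div_mul_cancel₀ (Complex.exp ζ * (starRingEnd ℂ) α * (Complex.exp ζ - α)) hd
    linear_combination e1 - e2
  rw [e]
  apply div_eq_zero_iff.2
  left
  ring

theorem bet_lt {α v : ℂ} (hα : ‖α‖ < 1) (hv : v ∈ ball (0 : ℂ) 1) : bet α v ∈ ball (0 : ℂ) 1 := by
  rw [mem_ball_zero_iff] at hv ⊢
  refine mob_lt hα ?_
  rw [norm_pow]
  nlinarith [norm_nonneg v]

theorem bet_diff {α : ℂ} (hα : ‖α‖ < 1) : DifferentiableOn ℂ (bet α) (ball 0 1) := by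
  unfold bet
  refine DifferentiableOn.div (by fun_prop) (by fun_prop) ?_
  intro v hv
  exact den_ne2 hα (mem_ball_zero_iff.1 hv)

/-- the inverse formula -/
theorem sq_of_bet {α u v : ℂ} (hα : ‖α‖ < 1) (hv : ‖v‖ < 1) (hu : ‖u‖ < 1) (h : bet α v = u) :
    v ^ 2 = (u - α) / (1 - (starRingEnd ℂ) α * u) := by
  have hd := den_ne hα hu
  have hd2 := den_ne2 hα hv
  rw [bet, div_eq_iff hd2] at h
  rw [eq_div_iff hd]
  linear_combination h

theorem bet_neg (α v : ℂ) : bet α (-v) = bet α v := by simp [bet]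

/-- equal values of `bet` -/
theorem bet_eq {α v v' : ℂ} (hα : ‖α‖ < 1) (hv : ‖v‖ < 1) (hv' : ‖v'‖ < 1) (h : bet α v = bet α v') :
    v' = v ∨ v' = -v := by
  have hu : ‖bet α v‖ < 1 := mem_ball_zero_iff.1 (bet_lt hα (mem_ball_zero_iff.2 hv))
  have h1 := sq_of_bet hα hv hu rfl
  have h2 := sq_of_bet hα hv' hu h.symm
  exact sq_eq_sq_iff_eq_or_eq_neg.1 (h2.trans h1.symm)

theorem exp_int (ζ : ℂ) (m : ℤ) : Complex.exp (ζ + m * (2 * Real.pi * Complex.I)) = Complex.exp ζ := by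
  rw [Complex.exp_add, Complex.exp_int_mul_two_pi_mul_I, mul_one]

theorem La_int (α ζ : ℂ) (m : ℤ) : La α (ζ + m * (2 * Real.pi * Complex.I)) = La α ζ := by
  unfold La
  rw [exp_int, show -(ζ + (m : ℂ) * (2 * Real.pi * Complex.I)) = -ζ + ((-m : ℤ) : ℂ) * (2 * Real.pi * Complex.I) by
    push_cast; ring, exp_int]

theorem sa_int (α ζ : ℂ) (m : ℤ) :
    sa α (ζ + m * (2 * Real.pi * Complex.I)) = Complex.exp (m * (Real.pi * Complex.I)) * sa α ζ := by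
  unfold sa
  rw [La_int, ← Complex.exp_add]
  congr 1
  ring

theorem exp_even {m : ℤ} (h : Even m) : Complex.exp (m * (Real.pi * Complex.I)) = 1 := by
  obtain ⟨j, rfl⟩ := h
  rw [Complex.exp_eq_one_iff]
  exact ⟨j, by push_cast; ring⟩

theorem exp_odd {m : ℤ} (h : Odd m) : Complex.exp (m * (Real.pi * Complex.I)) = -1 := by
  obtain ⟨j, rfl⟩ := h
  have : (((2 * j + 1 : ℤ) : ℂ) * (Real.pi * Complex.I)) = Real.pi * Complex.I + j * (2 * Real.pi * Complex.I) := by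
    push_cast; ring
  rw [this, exp_int, Complex.exp_pi_mul_I]

end Pool.Agent.H55.PB
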