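import Pool.Agent.H55.PB.Lu

/-!
# THEOREM UD (MP_8f2e1c), chapter PB: the induction step, unbranched case
-/

set_option autoImplicit false

open Filter Topology Metric Set

namespace Pool.Agent.H55.PB

open Pool.Agent.H56.UD

variable {f : ℂ → ℂ} {U J P Cr : Set ℂ} {δ : ℝ} {η : ℂ → ℂ → ℂ} {ρ : ℝ}
variable {θ C r : ℝ} {x : ℂ} {ψ q : ℂ → ℂ} {k : ℕ}

/-- the strengthened claim -/
def Good (f : ℂ → ℂ) (U J : Set ℂ) (δ θ : ℝ) (k : ℕ) (ψ q : ℂ → ℂ) : Prop :=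
  ∃ (n : ℕ) (φ β s : ℂ → ℂ), Ty θ n β s ∧ PU (f^[k]) (dm f U J δ k) θ ψ φ β ∧ (∀ ζ ∈ Qc θ, φ (s ζ) = q ζ) ∧
    (n = 2 → ¬ Cls θ 1 q)

theorem Ty.typ {n : ℕ} {β s : ℂ → ℂ} (h : Ty θ n β s) :
    (∀ v, β v = v) ∨ ∃ α : ℂ, ‖α‖ ≤ θ ∧ ∀ v, β v = (v ^ 2 + α) / (1 + (starRingEnd ℂ) α * v ^ 2) := by
  rcases h with ⟨-, hb, -⟩ | ⟨-, α, hα, rfl, -⟩
  · exact Or.inl hb
  · exact Or.inr ⟨α, hα, fun v => rfl⟩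

theorem base_case (h : PS f U J P Cr δ η ρ) (hθ : 0 < θ) (hx : x ∈ P) (hr : r ≤ δ) (hG : GD θ C P x r ψ)
    (hq : Lf (f^[0]) (dm f U J δ 0) θ ψ q) : Good f U J δ θ 0 ψ q := by
  refine ⟨1, ψ, fun v => v, Complex.exp, Or.inl ⟨rfl, fun _ => rfl, rfl⟩, ⟨hG.diff, hG.inj, fun v hv => ⟨?_, rfl⟩,
    Or.inl fun _ => rfl⟩, fun ζ hζ => (hq.val ζ hζ).2.symm, fun h2 => by omega⟩
  rw [dm_zero]
  have h1 := hG.out ⟨v, hv, rfl⟩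
  rw [mem_thickening_iff]
  exact ⟨x, h.PJ hx, lt_of_lt_of_le (mem_ball.1 h1) hr⟩

/-- unbranched case -/
theorem stepA (h : PS f U J P Cr δ η ρ) (hθ : 0 < θ) (hθ1 : θ < 1) (hG : GD θ C P x r ψ)
    (hq : Lf (f^[k + 1]) (dm f U J δ (k + 1)) θ ψ q) (hc : Cls θ 2 q) {n : ℕ} {φ1 β s : ℂ → ℂ} (hT : Ty θ n β s)
    (hP : PU (f^[k]) (dm f U J δ k) θ ψ φ1 β) (h1 : ∀ ζ ∈ Qc θ, φ1 (s ζ) = f (q ζ))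
    (h2 : n = 2 → ¬ Cls θ 1 (fun ζ => f (q ζ))) {ρ2 : ℝ} (hρ2 : θ < ρ2) (hρ3 : ρ2 < 1) {φ0 : ℂ → ℂ}
    (hd : DifferentiableOn ℂ φ0 (ball 0 1 ∩ {v | ‖β v‖ < ρ2}))
    (hv : ∀ v ∈ ball (0 : ℂ) 1, ‖β v‖ < ρ2 → φ0 v ∈ U ∧ f (φ0 v) = φ1 v) {ζ0 : ℂ} (h0 : ζ0 ∈ Qs θ ρ2)
    (he : q ζ0 = φ0 (s ζ0)) : Good f U J δ θ (k + 1) ψ q := by
  have hρ0 : 0 < ρ2 := lt_trans hθ hρ2
  have hN : ∀ ζ ∈ Qs θ ρ2, s ζ ∈ ball (0 : ℂ) 1 ∧ ‖β (s ζ)‖ < ρ2 := by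
    intro ζ hζ
    rw [Qs_iff hρ0] at hζ
    have e1 := hT.sm hθ hθ1 hζ.1
    refine ⟨e1.1, ?_⟩
    rw [e1.2]
    exact hζ.2
  have hu : EqOn q (fun ζ => φ0 (s ζ)) (Qs θ ρ2) := by
    refine luniq h hθ hG hq (Qs_convex θ ρ2).isPreconnected inter_subset_left ?_ ?_ h0 he
    · exact hd.continuousOn.comp ((hT.sd hθ).continuousOn.mono inter_subset_left) fun ζ hζ => hN ζ hζ
    · intro ζ hζ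
      have e1 := hv _ (hN ζ hζ).1 (hN ζ hζ).2
      have e2 := hP.val _ (hN ζ hζ).1
      refine ⟨(dm_succ _ _).2 ⟨e1.1, ?_⟩, ?_⟩
      · rw [e1.2]; exact e2.1
      · rw [Function.iterate_succ_apply, e1.2, e2.2, (hT.sm hθ hθ1 hζ.1).2]
  have hcn : Cls θ n q := by
    rcases id hT with ⟨rfl, -, hs⟩ | ⟨rfl, -⟩
    · obtain ⟨ζ1, b0, b1, -⟩ := base hθ hρ2 hρ3
      refine per1 h hθ hG hq b0.1 b1.1 ?_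
      rw [hu b0, hu b1]
      show φ0 (s (ζ1 + ((1 : ℕ) : ℂ) * (2 * Real.pi * Complex.I))) = φ0 (s ζ1)
      rw [hT.per2]
    · exact hc
  obtain ⟨φ, φd, φN, φs⟩ := hT.ext hθ hθ1 hρ2 hq.diff hcn hd (fun ζ hζ hζ2 => hu ((Qs_iff hρ0).2 ⟨hζ, hζ2⟩))
  have hfφ : ∀ v ∈ ball (0 : ℂ) 1, φ v ∈ U ∧ f (φ v) = φ1 v := by
    intro v hv1
    by_cases hv2 : ‖β v‖ < ρ2
    · rw [φN v hv1 hv2]
      exact hv v hv1 hv2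
    · push Not at hv2
      obtain ⟨ζ, hζ, -, rfl⟩ := hT.ss hθ hθ1 hv1 (lt_of_lt_of_le hρ2 hv2)
      rw [φs ζ hζ, h1 ζ hζ]
      exact ⟨((dm_succ _ _).1 (hq.val ζ hζ).1).1, rfl⟩
  refine ⟨n, φ, β, s, hT, ⟨φd, ?_, fun v hv1 => ?_, hT.typ⟩, φs, fun hn hc1 => h2 hn ?_⟩
  · intro v hv1 v' hv2 hvv
    refine hP.inj hv1 hv2 ?_
    rw [← (hfφ v hv1).2, ← (hfφ v' hv2).2, hvv]
  · have e1 := hfφ v hv1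
    have e2 := hP.val v hv1
    refine ⟨(dm_succ _ _).2 ⟨e1.1, ?_⟩, ?_⟩
    · rw [e1.2]; exact e2.1
    · rw [Function.iterate_succ_apply, e1.2, e2.2]
  · intro ζ hζ hζ2
    show f (q _) = f (q ζ)
    rw [hc1 ζ hζ hζ2]

end Pool.Agent.H55.PB
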