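import Pool.Agent.H55.PB.StA

/-!
# THEOREM UD (MP_8f2e1c), chapter PB: the induction step, branched case
-/

set_option autoImplicit false

open Filter Topology Metric Set

namespace Pool.Agent.H55.PB

open Pool.Agent.H56.UD

variable {f : ℂ → ℂ} {U J P Cr : Set ℂ} {δ : ℝ} {η : ℂ → ℂ → ℂ} {ρ : ℝ}
variable {θ C r : ℝ} {x : ℂ} {ψ q : ℂ → ℂ} {k : ℕ}

/-- the sublevel sets of `bet` are star shaped -/
theorem star {α v : ℂ} {t : ℝ} (hθ : 0 < θ) (hθ1 : θ < 1) (hα : ‖α‖ ≤ θ) (hv : v ∈ ball (0 : ℂ) 1) (h : ‖bet α v‖ ≤ θ)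
    (h0 : 0 ≤ t) (h1 : t ≤ 1) : ‖bet α (t * v)‖ ≤ θ := by
  have hα1 : ‖α‖ < 1 := lt_of_le_of_lt hα hθ1
  have hv1 := mem_ball_zero_iff.1 hv
  have htv : ‖(t : ℂ) * v‖ < 1 := by
    rw [norm_mul, Complex.norm_real, Real.norm_eq_abs, abs_of_nonneg h0]
    nlinarith [norm_nonneg v]
  have key : ∀ w : ℂ, 1 + (starRingEnd ℂ) α * w ≠ 0 → (‖(w + α) / (1 + (starRingEnd ℂ) α * w)‖ ≤ θ ↔
      (1 - θ ^ 2 * ‖α‖ ^ 2) * ‖w‖ ^ 2 + 2 * (1 - θ ^ 2) * (α.re * w.re + α.im * w.im) + (‖α‖ ^ 2 - θ ^ 2) ≤ 0) := by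
    intro w hw
    rw [norm_div, div_le_iff₀ (norm_pos_iff.2 hw), ← pow_le_pow_iff_left₀ (norm_nonneg _)
      (mul_nonneg hθ.le (norm_nonneg _)) two_ne_zero, mul_pow]
    have e1 : ‖w + α‖ ^ 2 = ‖w‖ ^ 2 + 2 * (α.re * w.re + α.im * w.im) + ‖α‖ ^ 2 := by
      simp only [← Complex.normSq_eq_norm_sq, Complex.normSq_apply, Complex.add_re, Complex.add_im]
      ring
    have e2 : ‖1 + (starRingEnd ℂ) α * w‖ ^ 2 = 1 + 2 * (α.re * w.re + α.im * w.im) + ‖α‖ ^ 2 * ‖w‖ ^ 2 := by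
      simp only [← Complex.normSq_eq_norm_sq, Complex.normSq_apply, Complex.add_re, Complex.add_im, Complex.mul_re,
        Complex.mul_im, Complex.conj_re, Complex.conj_im, Complex.one_re, Complex.one_im]
      ring
    rw [e1, e2, ← sub_nonpos]
    constructor <;> intro h <;> linarith
  have hd := den_ne2 hα1 hv1
  have hd2 := den_ne2 hα1 htv
  have e1 := (key (v ^ 2) hd).1 h
  refine (key (((t : ℂ) * v) ^ 2) hd2).2 ?_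
  have e3 : ((t : ℂ) * v) ^ 2 = ((t ^ 2 : ℝ) : ℂ) * v ^ 2 := by push_cast; ring
  rw [e3]
  have e4 : ‖((t ^ 2 : ℝ) : ℂ) * v ^ 2‖ ^ 2 = (t ^ 2) ^ 2 * ‖v ^ 2‖ ^ 2 := by
    rw [norm_mul, Complex.norm_real, Real.norm_eq_abs, abs_of_nonneg (sq_nonneg t)]
    ring
  have e5 : (((t ^ 2 : ℝ) : ℂ) * v ^ 2).re = t ^ 2 * (v ^ 2).re := Complex.re_ofReal_mul _ _
  have e6 : (((t ^ 2 : ℝ) : ℂ) * v ^ 2).im = t ^ 2 * (v ^ 2).im := Complex.im_ofReal_mul _ _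
  rw [e4, e5, e6]
  set τ := t ^ 2 with hτ
  have hτ0 : 0 ≤ τ := sq_nonneg t
  have hτ1 : τ ≤ 1 := by rw [hτ]; nlinarith
  have hα2 : ‖α‖ ^ 2 ≤ θ ^ 2 := pow_le_pow_left₀ (norm_nonneg _) hα 2
  have hθ2 : θ ^ 2 < 1 := by nlinarith
  have hA : 0 ≤ (1 - θ ^ 2 * ‖α‖ ^ 2) * ‖v ^ 2‖ ^ 2 := by
    apply mul_nonneg _ (sq_nonneg _)
    nlinarith [sq_nonneg θ, sq_nonneg ‖α‖]
  set A := (1 - θ ^ 2 * ‖α‖ ^ 2) * ‖v ^ 2‖ ^ 2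
  set B := 2 * (1 - θ ^ 2) * (α.re * (v ^ 2).re + α.im * (v ^ 2).im)
  have e7 : (1 - θ ^ 2 * ‖α‖ ^ 2) * (τ ^ 2 * ‖v ^ 2‖ ^ 2) + 2 * (1 - θ ^ 2) * (α.re * (τ * (v ^ 2).re)
      + α.im * (τ * (v ^ 2).im)) + (‖α‖ ^ 2 - θ ^ 2) = τ ^ 2 * A + τ * B + (‖α‖ ^ 2 - θ ^ 2) := by ring
  rw [e7]
  have e8 : τ ^ 2 * A + τ * B + (‖α‖ ^ 2 - θ ^ 2) =
      τ * (A + B + (‖α‖ ^ 2 - θ ^ 2)) + (1 - τ) * (‖α‖ ^ 2 - θ ^ 2) - τ * (1 - τ) * A := by ring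
  rw [e8]
  have f1 : τ * (A + B + (‖α‖ ^ 2 - θ ^ 2)) ≤ 0 := mul_nonpos_of_nonneg_of_nonpos hτ0 e1
  have f2 : (1 - τ) * (‖α‖ ^ 2 - θ ^ 2) ≤ 0 := mul_nonpos_of_nonneg_of_nonpos (by linarith) (by linarith)
  have f3 : 0 ≤ τ * (1 - τ) * A := mul_nonneg (mul_nonneg hτ0 (by linarith)) hA
  linarith

/-- the principal branch of the square root of `1 - v0 / v` on the collar -/
theorem slit2 {α v v0 : ℂ} (hθ : 0 < θ) (hθ1 : θ < 1) (hα : ‖α‖ ≤ θ) (hv0 : v0 ∈ ball (0 : ℂ) 1) (h0 : ‖bet α v0‖ ≤ θ)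
    (hv : θ < ‖bet α v‖) (hvn : v ≠ 0) : 1 - v0 / v ∈ Complex.slitPlane := by
  rw [Complex.mem_slitPlane_iff]
  by_contra hcon
  push Not at hcon
  obtain ⟨h1, h2⟩ := hcon
  simp only [Complex.sub_re, Complex.one_re, Complex.sub_im, Complex.one_im, zero_sub, neg_eq_zero] at h1 h2
  set w := v0 / v with hw
  have hwr : w = (w.re : ℂ) := by
    apply Complex.ext
    · simp
    · simp [h2]
  have hw1 : 1 ≤ w.re := by linarith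
  have hv3 : v = ((w.re)⁻¹ : ℝ) * v0 := by
    have e1 : v0 = w * v := by rw [hw, div_mul_cancel₀ _ hvn]
    rw [e1, hwr]
    push_cast
    rw [Complex.ofReal_re, ← mul_assoc, inv_mul_cancel₀, one_mul]
    exact_mod_cast (by linarith : w.re ≠ 0)
  have h3 := star hθ hθ1 hα hv0 h0 (t := (w.re)⁻¹) (inv_nonneg.2 (by linarith)) (inv_le_one_of_one_le₀ hw1)
  rw [← hv3] at h3
  linarith

end Pool.Agent.H55.PB
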