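import Pool.Agent.H55.PB.StB

/-!
# THEOREM UD (MP_8f2e1c), chapter PB: the induction step, branched case (three subcases)
-/

set_option autoImplicit false

open Filter Topology Metric Set

namespace Pool.Agent.H55.PB

open Pool.Agent.H56.UD

variable {f : ℂ → ℂ} {U J P Cr : Set ℂ} {δ : ℝ} {η : ℂ → ℂ → ℂ} {ρ : ℝ}
variable {θ C r ρ2 : ℝ} {x c : ℂ} {ψ q : ℂ → ℂ} {k : ℕ}

theorem sgn_ball {ε w : ℂ} (hε : ε = 1 ∨ ε = -1) (hw : w ∈ ball (0 : ℂ) ρ) : ε * w ∈ ball (0 : ℂ) ρ := by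
  rw [mem_ball_zero_iff] at hw ⊢
  rcases hε with rfl | rfl
  · rwa [one_mul]
  · rwa [neg_one_mul, norm_neg]

theorem sq_ball (hρ : 0 < ρ) {w z : ℂ} (h : w ^ 2 = z) (hz : ‖z‖ < ρ ^ 2 / 4) : w ∈ ball (0 : ℂ) ρ := by
  rw [mem_ball_zero_iff]
  have h1 : ‖w‖ ^ 2 < ρ ^ 2 / 4 := by
    rw [← norm_pow, h]; exact hz
  have h2 : ‖w‖ ^ 2 < ρ ^ 2 := by nlinarith
  exact lt_of_pow_lt_pow_left₀ 2 hρ.le h2

/-- a lift in the square root coordinate -/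
theorem brn (h : PS f U J P Cr δ η ρ) (hθ : 0 < θ) (hG : GD θ C P x r ψ)
    (hq : Lf (f^[k + 1]) (dm f U J δ (k + 1)) θ ψ q) (hc : c ∈ Cr) {T : ℂ → ℂ} (hTc : ContinuousOn T (Qs θ ρ2))
    (hT : ∀ ζ ∈ Qs θ ρ2, T ζ ^ 2 = f (q ζ) - f c ∧ T ζ ∈ ball (0 : ℂ) ρ) {ζ0 : ℂ} (h0 : ζ0 ∈ Qs θ ρ2)
    (hz : q ζ0 ∈ η c '' ball 0 ρ) :
    ∃ ε : ℂ, (ε = 1 ∨ ε = -1) ∧ ∀ ζ ∈ Qs θ ρ2, q ζ = η c (ε * T ζ) := by
  obtain ⟨nd, ni, -, nv⟩ := h.nf c hc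
  obtain ⟨v1, hv1, hv2⟩ := hz
  have e1 : v1 ^ 2 = T ζ0 ^ 2 := by
    rw [(hT ζ0 h0).1, ← hv2, (nv v1 hv1).2]
    ring
  obtain ⟨ε, hε, hε2⟩ : ∃ ε : ℂ, (ε = 1 ∨ ε = -1) ∧ v1 = ε * T ζ0 := by
    rcases sq_eq_sq_iff_eq_or_eq_neg.1 e1 with e2 | e2
    · exact ⟨1, Or.inl rfl, by rw [one_mul]; exact e2⟩
    · exact ⟨-1, Or.inr rfl, by rw [neg_one_mul]; exact e2⟩
  have hεs : ε ^ 2 = 1 := by rcases hε with rfl | rfl <;> norm_num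
  refine ⟨ε, hε, luniq h hθ hG hq (Qs_convex θ ρ2).isPreconnected inter_subset_left ?_ ?_ h0 ?_⟩
  · exact nd.continuousOn.comp (continuousOn_const.mul hTc) fun ζ hζ => sgn_ball hε (hT ζ hζ).2
  · intro ζ hζ
    have e2 := nv _ (sgn_ball hε (hT ζ hζ).2)
    have e3 := hq.val ζ hζ.1
    have e4 : f (η c (ε * T ζ)) = f (q ζ) := by
      rw [e2.2, mul_pow, hεs, one_mul, (hT ζ hζ).1]
      ring
    refine ⟨(dm_succ _ _).2 ⟨e2.1, ?_⟩, ?_⟩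
    · rw [e4]
      exact ((dm_succ _ _).1 e3.1).2
    · rw [Function.iterate_succ_apply, e4, ← Function.iterate_succ_apply, e3.2]
  · rw [← hε2, hv2]

/-- subcase 1: the critical value is not in the image -/
theorem stepB1 (h : PS f U J P Cr δ η ρ) (hθ : 0 < θ) (hθ1 : θ < 1) (hG : GD θ C P x r ψ)
    (hq : Lf (f^[k + 1]) (dm f U J δ (k + 1)) θ ψ q) (hcl : Cls θ 2 q) {n : ℕ} {φ1 β s : ℂ → ℂ} (hT : Ty θ n β s)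
    (hP : PU (f^[k]) (dm f U J δ k) θ ψ φ1 β) (h1 : ∀ ζ ∈ Qc θ, φ1 (s ζ) = f (q ζ))
    (h2 : n = 2 → ¬ Cls θ 1 (fun ζ => f (q ζ))) (hρ2 : θ < ρ2) (hρ3 : ρ2 < 1) (hc : c ∈ Cr)
    (hsm : ∀ v ∈ ball (0 : ℂ) 1, ‖β v‖ < ρ2 → ‖φ1 v - f c‖ < ρ ^ 2 / 4) {ζ0 : ℂ} (h0 : ζ0 ∈ Qs θ ρ2)
    (hz : q ζ0 ∈ η c '' ball 0 ρ) (hcn : f c ∉ φ1 '' ball 0 1) : Good f U J δ θ (k + 1) ψ q := by
  have hρ0 : 0 < ρ2 := lt_trans hθ hρ2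
  have hN : ∀ ζ ∈ Qs θ ρ2, s ζ ∈ ball (0 : ℂ) 1 ∧ ‖β (s ζ)‖ < ρ2 := by
    intro ζ hζ
    rw [Qs_iff hρ0] at hζ
    have e1 := hT.sm hθ hθ1 hζ.1
    refine ⟨e1.1, ?_⟩
    rw [e1.2]
    exact hζ.2
  obtain ⟨nd, ni, -, nv⟩ := h.nf c hc
  obtain ⟨σ, σd, σv⟩ := ex_nofac hP.diff hcn
  have hσ : ∀ v ∈ ball (0 : ℂ) 1, ‖β v‖ < ρ2 → σ v ∈ ball (0 : ℂ) ρ := fun v hv hv2 =>
    sq_ball h.hρ (σv v hv).2 (hsm v hv hv2)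
  obtain ⟨ε, hε, hεq⟩ := brn h hθ hG hq hc (T := fun ζ => σ (s ζ)) (ρ2 := ρ2)
    (σd.continuousOn.comp ((hT.sd hθ).continuousOn.mono inter_subset_left) fun ζ hζ => (hN ζ hζ).1)
    (fun ζ hζ => ⟨by rw [(σv _ (hN ζ hζ).1).2, h1 ζ hζ.1], hσ _ (hN ζ hζ).1 (hN ζ hζ).2⟩) h0 hz
  have hεs : ε ^ 2 = 1 := by rcases hε with rfl | rfl <;> norm_num
  refine stepA h hθ hθ1 hG hq hcl hT hP h1 h2 hρ2 hρ3 (φ0 := fun v => η c (ε * σ v)) ?_ ?_ h0 (hεq ζ0 h0)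
  · exact nd.comp ((differentiableOn_const _).mul (σd.mono inter_subset_left)) fun v hv =>
      sgn_ball hε (hσ v hv.1 hv.2)
  · intro v hv hv2
    have e1 := nv _ (sgn_ball hε (hσ v hv hv2))
    refine ⟨e1.1, ?_⟩
    show f (η c (ε * σ v)) = φ1 v
    rw [e1.2, mul_pow, hεs, one_mul, (σv v hv).2]
    ring

/-- subcase 3: a critical value over a unit of degree two is impossible -/
theorem stepB3 (h : PS f U J P Cr δ η ρ) (hθ : 0 < θ) (hθ1 : θ < 1) (hG : GD θ C P x r ψ)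
    (hq : Lf (f^[k + 1]) (dm f U J δ (k + 1)) θ ψ q) (hcl : Cls θ 2 q) {α : ℂ} (hα : ‖α‖ ≤ θ) {φ1 : ℂ → ℂ}
    (hP : PU (f^[k]) (dm f U J δ k) θ ψ φ1 (bet α)) (h1 : ∀ ζ ∈ Qc θ, φ1 (sa α ζ) = f (q ζ))
    (hρ2 : θ < ρ2) (hρ3 : ρ2 < 1) (hc : c ∈ Cr)
    (hsm : ∀ v ∈ ball (0 : ℂ) 1, ‖bet α v‖ < ρ2 → ‖φ1 v - f c‖ < ρ ^ 2 / 4) {ζ0 : ℂ} (h0 : ζ0 ∈ Qs θ ρ2)
    (hz : q ζ0 ∈ η c '' ball 0 ρ) {v0 : ℂ} (hv0 : v0 ∈ ball (0 : ℂ) 1) (hcv : φ1 v0 = f c) (hb : ‖bet α v0‖ ≤ θ) :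
    False := by
  have hρ0 : 0 < ρ2 := lt_trans hθ hρ2
  have hT : Ty θ 2 (bet α) (sa α) := Or.inr ⟨rfl, α, hα, rfl, rfl⟩
  have hN : ∀ ζ ∈ Qs θ ρ2, sa α ζ ∈ ball (0 : ℂ) 1 ∧ ‖bet α (sa α ζ)‖ < ρ2 := by
    intro ζ hζ
    rw [Qs_iff hρ0] at hζ
    have e1 := hT.sm hθ hθ1 hζ.1
    refine ⟨e1.1, ?_⟩
    rw [e1.2]
    exact hζ.2
  obtain ⟨nd, ni, -, nv⟩ := h.nf c hc
  obtain ⟨σ, σd, σv⟩ := ex_fac hP.diff hP.inj hv0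
  have hsl : ∀ ζ ∈ Qc θ, 1 - v0 / sa α ζ ∈ Complex.slitPlane := by
    intro ζ hζ
    refine slit2 hθ hθ1 hα hv0 hb ?_ (sa_ne α ζ)
    rw [bet_sa hθ hθ1 hα hζ]
    exact (Qc_norm hθ hζ).1
  set T : ℂ → ℂ := fun ζ => Complex.exp ((ζ + La α ζ) / 4) * Complex.exp (Complex.log (1 - v0 / sa α ζ) / 2) *
    σ (sa α ζ) with hTd
  have hTc : ContinuousOn T (Qc θ) := by
    have c1 : ContinuousOn (fun ζ => ζ + La α ζ) (Qc θ) := continuousOn_id.add (La_diff hθ hα).continuousOn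
    have c2 : ContinuousOn (sa α) (Qc θ) := (sa_diff hθ hα).continuousOn
    have c3 : ContinuousOn (fun ζ => 1 - v0 / sa α ζ) (Qc θ) :=
      continuousOn_const.sub (continuousOn_const.div c2 fun ζ _ => sa_ne α ζ)
    refine ContinuousOn.mul (ContinuousOn.mul ?_ ?_) ?_
    · exact (c1.div_const 4).cexp
    · exact ((c3.clog hsl).div_const 2).cexp
    · exact σd.continuousOn.comp c2 fun ζ hζ => (hT.sm hθ hθ1 hζ).1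
  have hTne : ∀ ζ ∈ Qc θ, T ζ ≠ 0 := fun ζ hζ =>
    mul_ne_zero (mul_ne_zero (Complex.exp_ne_zero _) (Complex.exp_ne_zero _)) (σv _ (hT.sm hθ hθ1 hζ).1).1
  have hTs : ∀ ζ ∈ Qc θ, T ζ ^ 2 = φ1 (sa α ζ) - f c := by
    intro ζ hζ
    have e1 : Complex.exp ((ζ + La α ζ) / 4) ^ 2 = sa α ζ := by
      rw [sa, ← Complex.exp_nat_mul]
      congr 1
      push_cast
      ring
    have e2 : Complex.exp (Complex.log (1 - v0 / sa α ζ) / 2) ^ 2 = 1 - v0 / sa α ζ := by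
      rw [← Complex.exp_nat_mul]
      have : ((2 : ℕ) : ℂ) * (Complex.log (1 - v0 / sa α ζ) / 2) = Complex.log (1 - v0 / sa α ζ) := by
        push_cast; ring
      rw [this, Complex.exp_log (Complex.slitPlane_ne_zero (hsl ζ hζ))]
    have e3 := (σv _ (hT.sm hθ hθ1 hζ).1).2
    rw [hcv] at e3
    rw [e3, hTd]
    show (_ * _ * _) ^ 2 = _
    rw [mul_pow, mul_pow, e1, e2, mul_sub, mul_one, mul_div_cancel₀ _ (sa_ne α ζ)]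
  obtain ⟨ε, hε, hεq⟩ := brn h hθ hG hq hc (T := T) (ρ2 := ρ2) (hTc.mono inter_subset_left)
    (fun ζ hζ => ⟨by rw [hTs ζ hζ.1, h1 ζ hζ.1], sq_ball h.hρ (hTs ζ hζ.1) (hsm _ (hN ζ hζ).1 (hN ζ hζ).2)⟩) h0 hz
  obtain ⟨ζ1, b0, -, b2⟩ := base hθ hρ2 hρ3
  have hball : ∀ ζ ∈ Qs θ ρ2, T ζ ∈ ball (0 : ℂ) ρ := fun ζ hζ =>
    sq_ball h.hρ (hTs ζ hζ.1) (hsm _ (hN ζ hζ).1 (hN ζ hζ).2)
  have hper : T (ζ1 + ((2 : ℕ) : ℂ) * (2 * Real.pi * Complex.I)) = - T ζ1 := by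
    have e1 := hT.per2 ζ1
    have e2 : La α (ζ1 + ((2 : ℕ) : ℂ) * (2 * Real.pi * Complex.I)) = La α ζ1 := by
      have := La_int α ζ1 2
      push_cast at this ⊢
      exact this
    have e3 : Complex.exp ((ζ1 + ((2 : ℕ) : ℂ) * (2 * Real.pi * Complex.I) + La α ζ1) / 4)
        = - Complex.exp ((ζ1 + La α ζ1) / 4) := by
      have : (ζ1 + ((2 : ℕ) : ℂ) * (2 * Real.pi * Complex.I) + La α ζ1) / 4
          = (ζ1 + La α ζ1) / 4 + Real.pi * Complex.I := by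
        push_cast; ring
      rw [this, Complex.exp_add, Complex.exp_pi_mul_I]
      ring
    rw [hTd]
    show Complex.exp ((_ + La α (ζ1 + ((2 : ℕ) : ℂ) * (2 * Real.pi * Complex.I))) / 4) * _ * _ = -(_ * _ * _)
    rw [e1, e2, e3]
    ring
  have e4 := hcl ζ1 b0.1 b2.1
  have e5 := hεq ζ1 b0
  have e6 := hεq _ b2
  have e7 : η c (ε * T (ζ1 + ((2 : ℕ) : ℂ) * (2 * Real.pi * Complex.I))) = η c (ε * T ζ1) := by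
    rw [← e5, ← e6]
    exact e4
  have e8 := ni (sgn_ball hε (hball _ b2)) (sgn_ball hε (hball _ b0)) e7
  rw [hper] at e8
  have hε0 : ε ≠ 0 := by rcases hε with rfl | rfl <;> norm_num
  have e9 : ε * T ζ1 ≠ 0 := mul_ne_zero hε0 (hTne ζ1 b0.1)
  apply e9
  linear_combination (-1 / 2) * e8

end Pool.Agent.H55.PB
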