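import Pool.Agent.H55.PB.StC

/-!
# THEOREM UD (MP_8f2e1c), chapter PB: the induction step, branched case: a new unit of degree two
-/

set_option autoImplicit false

open Filter Topology Metric Set

namespace Pool.Agent.H55.PB

open Pool.Agent.H56.UD

variable {f : ℂ → ℂ} {U J P Cr : Set ℂ} {δ : ℝ} {η : ℂ → ℂ → ℂ} {ρ : ℝ}
variable {θ C r ρ2 : ℝ} {x c : ℂ} {ψ q : ℂ → ℂ} {k : ℕ}

/-- subcase 2: a critical value in a unit of degree one -/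
theorem stepB2 (h : PS f U J P Cr δ η ρ) (hθ : 0 < θ) (hθ1 : θ < 1) (hG : GD θ C P x r ψ)
    (hq : Lf (f^[k + 1]) (dm f U J δ (k + 1)) θ ψ q) (hcl : Cls θ 2 q) {φ1 β : ℂ → ℂ} (hβ : ∀ v, β v = v)
    (hP : PU (f^[k]) (dm f U J δ k) θ ψ φ1 β) (h1 : ∀ ζ ∈ Qc θ, φ1 (Complex.exp ζ) = f (q ζ))
    (hρ2 : θ < ρ2) (hρ3 : ρ2 < 1) (hc : c ∈ Cr)
    (hsm : ∀ v ∈ ball (0 : ℂ) 1, ‖v‖ < ρ2 → ‖φ1 v - f c‖ < ρ ^ 2 / 4) {ζ0 : ℂ} (h0 : ζ0 ∈ Qs θ ρ2)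
    (hz : q ζ0 ∈ η c '' ball 0 ρ) {v0 : ℂ} (hcv : φ1 v0 = f c) (hb : ‖v0‖ ≤ θ) :
    Good f U J δ θ (k + 1) ψ q := by
  have hρ0 : 0 < ρ2 := lt_trans hθ hρ2
  have hv01 : ‖v0‖ < 1 := lt_of_le_of_lt hb hθ1
  have hv0 : v0 ∈ ball (0 : ℂ) 1 := mem_ball_zero_iff.2 hv01
  have hT : Ty θ 2 (bet v0) (sa v0) := Or.inr ⟨rfl, v0, hb, rfl, rfl⟩
  have hN : ∀ ζ ∈ Qs θ ρ2, sa v0 ζ ∈ ball (0 : ℂ) 1 ∧ Complex.exp ζ ∈ ball (0 : ℂ) 1 ∧ ‖Complex.exp ζ‖ < ρ2 := by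
    intro ζ hζ
    rw [Qs_iff hρ0] at hζ
    have e1 := hT.sm hθ hθ1 hζ.1
    exact ⟨e1.1, mem_ball_zero_iff.2 (by linarith [hζ.2]), hζ.2⟩
  obtain ⟨nd, ni, -, nv⟩ := h.nf c hc
  obtain ⟨σ, σd, σv⟩ := ex_fac2 hP.diff hP.inj hv0
  rw [hcv] at σv
  have hb1 : ∀ v ∈ ball (0 : ℂ) 1, bet v0 v ∈ ball (0 : ℂ) 1 := fun v hv => bet_lt hv01 hv
  -- the square root in the new coordinate
  have hsq : ∀ v ∈ ball (0 : ℂ) 1, (v * σ (bet v0 v)) ^ 2 = φ1 (bet v0 v) - f c := by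
    intro v hv
    have e1 := (σv _ (hb1 v hv)).2
    have e2 := sq_of_bet hv01 (mem_ball_zero_iff.1 hv) (mem_ball_zero_iff.1 (hb1 v hv)) rfl
    rw [mul_pow, e2, e1]
  have hball : ∀ v ∈ ball (0 : ℂ) 1, ‖bet v0 v‖ < ρ2 → v * σ (bet v0 v) ∈ ball (0 : ℂ) ρ := fun v hv hv2 =>
    sq_ball h.hρ (hsq v hv) (hsm _ (hb1 v hv) hv2)
  have hsub : Qs θ ρ2 ⊆ Qc θ := inter_subset_left
  set T : ℂ → ℂ := fun ζ => sa v0 ζ * σ (bet v0 (sa v0 ζ)) with hTd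
  have hTc : ContinuousOn T (Qc θ) := by
    have c2 : ContinuousOn (sa v0) (Qc θ) := (sa_diff hθ hb).continuousOn
    refine c2.mul (σd.continuousOn.comp ((bet_diff hv01).continuousOn.comp c2 fun ζ hζ => (hT.sm hθ hθ1 hζ).1)
      fun ζ hζ => hb1 _ (hT.sm hθ hθ1 hζ).1)
  have hexp : ∀ ζ ∈ Qc θ, bet v0 (sa v0 ζ) = Complex.exp ζ := fun ζ hζ => bet_sa hθ hθ1 hb hζ
  have hTb : ∀ ζ ∈ Qs θ ρ2, T ζ ∈ ball (0 : ℂ) ρ := by
    intro ζ hζ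
    refine hball _ (hN ζ hζ).1 ?_
    rw [hexp ζ (hsub hζ)]
    exact (hN ζ hζ).2.2
  obtain ⟨ε, hε, hεq⟩ := brn h hθ hG hq hc (T := T) (ρ2 := ρ2) (hTc.mono hsub)
    (fun ζ hζ => ⟨by rw [hTd]; show (_ * _) ^ 2 = _; rw [hsq _ (hN ζ hζ).1, hexp ζ (hsub hζ), h1 ζ (hsub hζ)], hTb ζ hζ⟩)
    h0 hz
  have hεs : ε ^ 2 = 1 := by rcases hε with rfl | rfl <;> norm_num
  have hε0 : ε ≠ 0 := by rcases hε with rfl | rfl <;> norm_num
  -- not closed after one turn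
  have hn1 : ¬ Cls θ 1 q := by
    intro h3
    obtain ⟨ζ1, b0, b1, -⟩ := base hθ hρ2 hρ3
    have e4 := h3 ζ1 b0.1 b1.1
    have e5 := hεq ζ1 b0
    have e6 := hεq _ b1
    have e7 : η c (ε * T (ζ1 + ((1 : ℕ) : ℂ) * (2 * Real.pi * Complex.I))) = η c (ε * T ζ1) := by
      rw [← e5, ← e6]
      exact e4
    have e8 := ni (sgn_ball hε (hTb _ b1)) (sgn_ball hε (hTb _ b0)) e7
    have e9 : sa v0 (ζ1 + ((1 : ℕ) : ℂ) * (2 * Real.pi * Complex.I)) = - sa v0 ζ1 := by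
      have := sa_int v0 ζ1 1
      rw [exp_odd (by decide)] at this
      push_cast at this ⊢
      rw [this]
      ring
    have e10 : T (ζ1 + ((1 : ℕ) : ℂ) * (2 * Real.pi * Complex.I)) = - T ζ1 := by
      rw [hTd]
      show sa v0 (ζ1 + ((1 : ℕ) : ℂ) * (2 * Real.pi * Complex.I))
        * σ (bet v0 (sa v0 (ζ1 + ((1 : ℕ) : ℂ) * (2 * Real.pi * Complex.I)))) = -(sa v0 ζ1 * σ (bet v0 (sa v0 ζ1)))
      rw [e9, bet_neg]
      ring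
    have e11 : T ζ1 ≠ 0 := mul_ne_zero (sa_ne _ _) (σv _ (hb1 _ (hN ζ1 b0).1)).1
    rw [e10] at e8
    apply mul_ne_zero hε0 e11
    linear_combination (-1 / 2) * e8
  -- the new unit
  obtain ⟨φ, φd, φN, φs⟩ := hT.ext hθ hθ1 hρ2 (φ0 := fun v => η c (ε * (v * σ (bet v0 v)))) hq.diff hcl
    (nd.comp ((differentiableOn_const _).mul (differentiableOn_id.mul
      ((σd.comp (bet_diff hv01) hb1)) |>.mono inter_subset_left)) fun v hv => sgn_ball hε (hball v hv.1 hv.2))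
    (fun ζ hζ hζ2 => hεq ζ ((Qs_iff hρ0).2 ⟨hζ, hζ2⟩))
  have hfφ : ∀ v ∈ ball (0 : ℂ) 1, φ v ∈ U ∧ f (φ v) = φ1 (bet v0 v) := by
    intro v hv1
    by_cases hv2 : ‖bet v0 v‖ < ρ2
    · rw [φN v hv1 hv2]
      have e1 := nv _ (sgn_ball hε (hball v hv1 hv2))
      refine ⟨e1.1, ?_⟩
      rw [e1.2, mul_pow, hεs, one_mul, hsq v hv1]
      ring
    · push Not at hv2
      obtain ⟨ζ, hζ, -, rfl⟩ := hT.ss hθ hθ1 hv1 (lt_of_lt_of_le hρ2 hv2)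
      rw [φs ζ hζ, hexp ζ hζ, h1 ζ hζ]
      exact ⟨((dm_succ _ _).1 (hq.val ζ hζ).1).1, rfl⟩
  refine ⟨2, φ, bet v0, sa v0, hT, ⟨φd, ?_, fun v hv1 => ?_, hT.typ⟩, φs, fun _ => hn1⟩
  · intro v hv1 v' hv2 hvv
    have e1 : bet v0 v = bet v0 v' := by
      refine hP.inj (hb1 v hv1) (hb1 v' hv2) ?_
      rw [← (hfφ v hv1).2, ← (hfφ v' hv2).2, hvv]
    rcases bet_eq hv01 (mem_ball_zero_iff.1 hv1) (mem_ball_zero_iff.1 hv2) e1 with e2 | e2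
    · exact e2.symm
    · subst e2
      by_cases hv3 : ‖bet v0 v‖ < ρ2
      · have hv4 : ‖bet v0 (-v)‖ < ρ2 := by rw [bet_neg]; exact hv3
        rw [φN v hv1 hv3, φN (-v) hv2 hv4] at hvv
        have e3 := ni (sgn_ball hε (hball v hv1 hv3)) (sgn_ball hε (hball (-v) hv2 hv4)) hvv
        rw [bet_neg] at e3
        have e4 : ε * (v * σ (bet v0 v)) = 0 := by linear_combination (1 / 2) * e3
        have e5 : v = 0 := by
          rcases mul_eq_zero.1 e4 with e6 | e6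
          · exact absurd e6 hε0
          · rcases mul_eq_zero.1 e6 with e7 | e7
            · exact e7
            · exact absurd e7 (σv _ (hb1 v hv1)).1
        rw [e5, neg_zero]
      · exfalso
        push Not at hv3
        obtain ⟨ζ, hζ, him, rfl⟩ := hT.ss hθ hθ1 hv1 (lt_of_lt_of_le hρ2 hv3)
        have hπ := Real.pi_pos
        have hζ2 : ζ + ((1 : ℕ) : ℂ) * (2 * Real.pi * Complex.I) ∈ Qc θ := by
          have e : ((1 : ℕ) : ℂ) * (2 * Real.pi * Complex.I) = ((2 * Real.pi : ℝ) : ℂ) * Complex.I := by push_cast; ring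
          rw [e, Qc_shift]
          have := abs_le.1 him
          exact ⟨hζ.1, hζ.2.1, abs_lt.2 ⟨by linarith, by linarith⟩⟩
        have e9 : sa v0 (ζ + ((1 : ℕ) : ℂ) * (2 * Real.pi * Complex.I)) = - sa v0 ζ := by
          have := sa_int v0 ζ 1
          rw [exp_odd (by decide)] at this
          push_cast at this ⊢
          rw [this]
          ring
        refine hn1 (per1 h hθ hG hq hζ hζ2 ?_)
        rw [← φs ζ hζ, ← φs _ hζ2, e9]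
        exact hvv.symm
  · have e1 := hfφ v hv1
    have e2 := hP.val _ (hb1 v hv1)
    refine ⟨(dm_succ _ _).2 ⟨e1.1, ?_⟩, ?_⟩
    · rw [e1.2]; exact e2.1
    · rw [Function.iterate_succ_apply, e1.2, e2.2, hβ]

end Pool.Agent.H55.PB
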