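import Pool.Agent.H55.PB.Sa

/-!
# THEOREM UD (MP_8f2e1c), chapter PB: the two types of units, extension of units over the collar
-/

set_option autoImplicit false

open Filter Topology Metric Set

namespace Pool.Agent.H55.PB

open Pool.Agent.H56.UD

/-- the type of a unit: degree, map, coordinate of the collar -/
def Ty (θ : ℝ) (n : ℕ) (β s : ℂ → ℂ) : Prop :=
  (n = 1 ∧ (∀ v, β v = v) ∧ s = Complex.exp) ∨ (n = 2 ∧ ∃ α : ℂ, ‖α‖ ≤ θ ∧ β = bet α ∧ s = sa α)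

variable {θ : ℝ} {n : ℕ} {β s : ℂ → ℂ}

theorem Ty.bm (hθ1 : θ < 1) (h : Ty θ n β s) {v : ℂ} (hv : v ∈ ball (0 : ℂ) 1) : β v ∈ ball (0 : ℂ) 1 := by
  rcases h with ⟨-, hb, -⟩ | ⟨-, α, hα, rfl, -⟩
  · rwa [hb]
  · exact bet_lt (lt_of_le_of_lt hα hθ1) hv

theorem Ty.bd (hθ1 : θ < 1) (h : Ty θ n β s) : DifferentiableOn ℂ β (ball 0 1) := by
  rcases h with ⟨-, hb, -⟩ | ⟨-, α, hα, rfl, -⟩
  · exact differentiableOn_id.congr fun v _ => hb v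
  · exact bet_diff (lt_of_le_of_lt hα hθ1)

theorem Ty.sd (hθ : 0 < θ) (h : Ty θ n β s) : DifferentiableOn ℂ s (Qc θ) := by
  rcases h with ⟨-, -, rfl⟩ | ⟨-, α, hα, -, rfl⟩
  · exact Complex.differentiable_exp.differentiableOn
  · exact sa_diff hθ hα

theorem Ty.sm (hθ : 0 < θ) (hθ1 : θ < 1) (h : Ty θ n β s) {ζ : ℂ} (hζ : ζ ∈ Qc θ) :
    s ζ ∈ ball (0 : ℂ) 1 ∧ β (s ζ) = Complex.exp ζ := by
  rcases h with ⟨-, hb, rfl⟩ | ⟨-, α, hα, rfl, rfl⟩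
  · exact ⟨mem_ball_zero_iff.2 (Qc_norm hθ hζ).2, hb _⟩
  · exact ⟨sa_lt hθ hθ1 hα hζ, bet_sa hθ hθ1 hα hζ⟩

theorem Ty.ds (hθ : 0 < θ) (hθ1 : θ < 1) (h : Ty θ n β s) {ζ : ℂ} (hζ : ζ ∈ Qc θ) : deriv s ζ ≠ 0 := by
  intro h0
  have h1 := h.sm hθ hθ1 hζ
  have hsd : DifferentiableAt ℂ s ζ := (h.sd hθ).differentiableAt ((Qc_open θ).mem_nhds hζ)
  have hbd : DifferentiableAt ℂ β (s ζ) := (h.bd hθ1).differentiableAt (isOpen_ball.mem_nhds h1.1)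
  have he : (fun ζ => Complex.exp ζ) =ᶠ[𝓝 ζ] β ∘ s := by
    filter_upwards [(Qc_open θ).mem_nhds hζ] with w hw
    exact (h.sm hθ hθ1 hw).2.symm
  have h2 := he.deriv_eq
  rw [deriv_comp ζ hbd hsd, h0, mul_zero] at h2
  have h3 : deriv (fun ζ => Complex.exp ζ) ζ = Complex.exp ζ := by simp
  rw [h3] at h2
  exact Complex.exp_ne_zero ζ h2

/-- the coordinate is onto -/
theorem Ty.ss (hθ : 0 < θ) (hθ1 : θ < 1) (h : Ty θ n β s) {v : ℂ} (hv : v ∈ ball (0 : ℂ) 1) (hv2 : θ < ‖β v‖) :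
    ∃ ζ ∈ Qc θ, |ζ.im| ≤ 3 * Real.pi ∧ s ζ = v := by
  have hπ := Real.pi_pos
  have hb := mem_ball_zero_iff.1 (h.bm hθ1 hv)
  have hb0 : β v ≠ 0 := norm_pos_iff.1 (lt_trans hθ hv2)
  set ζ0 : ℂ := Complex.log (β v) with hζ0
  have hre : ζ0.re = Real.log ‖β v‖ := Complex.log_re _
  have him : |ζ0.im| ≤ Real.pi := by
    rw [hζ0, Complex.log_im]
    exact Complex.abs_arg_le_pi _
  have h1 : Real.log θ < ζ0.re := by
    rw [hre]
    exact Real.log_lt_log hθ hv2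
  have h2 : ζ0.re < 0 := by
    rw [hre]
    exact Real.log_neg (norm_pos_iff.2 hb0) hb
  have hexp : Complex.exp ζ0 = β v := Complex.exp_log hb0
  have hQ : ζ0 ∈ Qc θ := ⟨h1, h2, by linarith⟩
  have him2 := abs_le.1 him
  have hQ2 : ζ0 + ((1 : ℤ) : ℂ) * (2 * Real.pi * Complex.I) ∈ Qc θ ∧
      |(ζ0 + ((1 : ℤ) : ℂ) * (2 * Real.pi * Complex.I)).im| ≤ 3 * Real.pi := by
    have e1 : (ζ0 + ((1 : ℤ) : ℂ) * (2 * Real.pi * Complex.I)).re = ζ0.re := by simp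
    have e2 : (ζ0 + ((1 : ℤ) : ℂ) * (2 * Real.pi * Complex.I)).im = ζ0.im + 2 * Real.pi := by simp
    have e3 : |ζ0.im + 2 * Real.pi| ≤ 3 * Real.pi := abs_le.2 ⟨by linarith, by linarith⟩
    refine ⟨⟨?_, ?_, ?_⟩, ?_⟩
    · rw [e1]; exact h1
    · rw [e1]; exact h2
    · rw [e2]; linarith
    · rw [e2]; exact e3
  rcases h with ⟨-, hb', rfl⟩ | ⟨-, α, hα, rfl, rfl⟩
  · exact ⟨ζ0, hQ, by linarith, by rw [hexp, hb']⟩
  · have hα1 : ‖α‖ < 1 := lt_of_le_of_lt hα hθ1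
    have e1 := sa_sq hθ hα hQ
    rw [hexp] at e1
    have e2 := sq_of_bet hα1 (mem_ball_zero_iff.1 hv) hb rfl
    rcases sq_eq_sq_iff_eq_or_eq_neg.1 (e1.trans e2.symm) with h3 | h3
    · exact ⟨ζ0, hQ, by linarith, h3⟩
    · refine ⟨_, hQ2.1, hQ2.2, ?_⟩
      rw [sa_int, exp_odd (by decide), h3]
      ring

/-- equal values of the coordinate -/
theorem Ty.per (hθ : 0 < θ) (hθ1 : θ < 1) (h : Ty θ n β s) {ζ ζ' : ℂ} (hζ : ζ ∈ Qc θ) (hζ' : ζ' ∈ Qc θ)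
    (he : s ζ = s ζ') : ∃ m : ℤ, ζ' = ζ + m * (n * (2 * Real.pi * Complex.I)) := by
  have h1 : Complex.exp ζ' = Complex.exp ζ := by
    rw [← (h.sm hθ hθ1 hζ).2, ← (h.sm hθ hθ1 hζ').2, he]
  obtain ⟨m, hm⟩ := Complex.exp_eq_exp_iff_exists_int.1 h1
  rcases h with ⟨rfl, -, -⟩ | ⟨rfl, α, hα, -, rfl⟩
  · exact ⟨m, by rw [hm]; push_cast; ring⟩
  · rcases Int.even_or_odd m with hm2 | hm2
    · obtain ⟨j, rfl⟩ := hm2
      exact ⟨j, by rw [hm]; push_cast; ring⟩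
    · exfalso
      rw [hm, sa_int, exp_odd hm2] at he
      have h0 := sa_ne α ζ
      apply h0
      linear_combination (1 / 2) * he

theorem Ty.per2 (h : Ty θ n β s) (ζ : ℂ) : s (ζ + n * (2 * Real.pi * Complex.I)) = s ζ := by
  rcases h with ⟨rfl, -, rfl⟩ | ⟨rfl, α, hα, -, rfl⟩
  · have := exp_int ζ 1
    simpa using this
  · have := sa_int α ζ 2
    rw [exp_even (by decide), one_mul] at this
    simpa using this

/-- shifts in the rectangle -/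
theorem Qc_shift {ζ : ℂ} {t : ℝ} : ζ + t * Complex.I ∈ Qc θ ↔
    Real.log θ < ζ.re ∧ ζ.re < 0 ∧ |ζ.im + t| < 6 * Real.pi := by
  have e1 : (ζ + t * Complex.I).re = ζ.re := by simp
  have e2 : (ζ + t * Complex.I).im = ζ.im + t := by simp
  unfold Qc Qr
  rw [mem_ofPred_eq, e1, e2]

theorem Cls.nat {m : ℕ} {q : ℂ → ℂ} (h : Cls θ m q) (j : ℕ) {ζ : ℂ} (hζ : ζ ∈ Qc θ)
    (h2 : ζ + j * (m * (2 * Real.pi * Complex.I)) ∈ Qc θ) : q (ζ + j * (m * (2 * Real.pi * Complex.I))) = q ζ := by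
  have hπ := Real.pi_pos
  induction j with
  | zero => simp
  | succ j ih =>
    have h3 : ζ + j * (m * (2 * Real.pi * Complex.I)) ∈ Qc θ := by
      have e1 : ζ + j * (m * (2 * Real.pi * Complex.I)) = ζ + ((j * (m * (2 * Real.pi)) : ℝ) : ℂ) * Complex.I := by
        push_cast; ring
      have e2 : ζ + ((j + 1 : ℕ) : ℂ) * (m * (2 * Real.pi * Complex.I))
          = ζ + (((j + 1) * (m * (2 * Real.pi)) : ℝ) : ℂ) * Complex.I := by
        push_cast; ring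
      rw [e2, Qc_shift] at h2
      rw [e1, Qc_shift]
      obtain ⟨h4, h5, h6⟩ := h2
      refine ⟨h4, h5, ?_⟩
      have h7 := abs_lt.1 hζ.2.2
      rw [abs_lt] at h6 ⊢
      have h8 : (0 : ℝ) ≤ m * (2 * Real.pi) := by positivity
      have h9 : (0 : ℝ) ≤ j * (m * (2 * Real.pi)) := by positivity
      constructor <;> nlinarith
    have h4 := ih h3
    rw [← h4]
    have e3 : ζ + ((j + 1 : ℕ) : ℂ) * (m * (2 * Real.pi * Complex.I))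
        = (ζ + j * (m * (2 * Real.pi * Complex.I))) + m * (2 * Real.pi * Complex.I) := by
      push_cast; ring
    rw [e3] at h2 ⊢
    exact h _ h3 h2

theorem Cls.int {m : ℕ} {q : ℂ → ℂ} (h : Cls θ m q) (j : ℤ) {ζ : ℂ} (hζ : ζ ∈ Qc θ)
    (h2 : ζ + j * (m * (2 * Real.pi * Complex.I)) ∈ Qc θ) : q (ζ + j * (m * (2 * Real.pi * Complex.I))) = q ζ := by
  rcases Int.eq_nat_or_neg j with ⟨k, rfl | rfl⟩
  · have := Cls.nat h k hζ (by simpa using h2)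
    simpa using this
  · have e1 : ζ + ((-(k : ℤ) : ℤ) : ℂ) * (m * (2 * Real.pi * Complex.I)) + k * (m * (2 * Real.pi * Complex.I)) = ζ := by
      push_cast; ring
    have := Cls.nat h k h2 (by rw [e1]; exact hζ)
    rw [e1] at this
    exact this.symm

/-- closed lifts are functions of the coordinate -/
theorem Ty.well (hθ : 0 < θ) (hθ1 : θ < 1) (h : Ty θ n β s) {q : ℂ → ℂ} (hq : Cls θ n q) {ζ ζ' : ℂ} (hζ : ζ ∈ Qc θ)
    (hζ' : ζ' ∈ Qc θ) (he : s ζ = s ζ') : q ζ = q ζ' := by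
  obtain ⟨m, rfl⟩ := h.per hθ hθ1 hζ hζ' he
  exact (Cls.int hq m hζ hζ').symm

/-- extension over the collar -/
theorem Ty.ext (hθ : 0 < θ) (hθ1 : θ < 1) (h : Ty θ n β s) {q φ0 : ℂ → ℂ} {ρ2 : ℝ} (hρ : θ < ρ2)
    (hqd : DifferentiableOn ℂ q (Qc θ)) (hq : Cls θ n q)
    (h0 : DifferentiableOn ℂ φ0 (ball 0 1 ∩ {v | ‖β v‖ < ρ2}))
    (h1 : ∀ ζ ∈ Qc θ, ‖Complex.exp ζ‖ < ρ2 → q ζ = φ0 (s ζ)) :
    ∃ φ : ℂ → ℂ, DifferentiableOn ℂ φ (ball 0 1) ∧ (∀ v ∈ ball (0 : ℂ) 1, ‖β v‖ < ρ2 → φ v = φ0 v) ∧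
      ∀ ζ ∈ Qc θ, φ (s ζ) = q ζ := by
  classical
  set φ : ℂ → ℂ := fun v => if hv : ∃ ζ ∈ Qc θ, s ζ = v then q hv.choose else φ0 v with hφ
  have hA : ∀ ζ ∈ Qc θ, φ (s ζ) = q ζ := by
    intro ζ hζ
    have hv : ∃ ζ' ∈ Qc θ, s ζ' = s ζ := ⟨ζ, hζ, rfl⟩
    rw [hφ]
    simp only [dif_pos hv]
    exact h.well hθ hθ1 hq hv.choose_spec.1 hζ hv.choose_spec.2
  have hB : ∀ v ∈ ball (0 : ℂ) 1, ‖β v‖ < ρ2 → φ v = φ0 v := by
    intro v hv hv2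
    by_cases hv3 : ∃ ζ ∈ Qc θ, s ζ = v
    · obtain ⟨ζ, hζ, rfl⟩ := hv3
      rw [hA ζ hζ]
      refine h1 ζ hζ ?_
      rw [← (h.sm hθ hθ1 hζ).2]
      exact hv2
    · rw [hφ]
      simp only [dif_neg hv3]
  refine ⟨φ, fun v hv => ?_, hB, hA⟩
  have hbc : ContinuousOn β (ball 0 1) := (h.bd hθ1).continuousOn
  have hO : IsOpen (ball (0 : ℂ) 1 ∩ {v | ‖β v‖ < ρ2}) := by
    have : ball (0 : ℂ) 1 ∩ {v | ‖β v‖ < ρ2} = ball (0 : ℂ) 1 ∩ (fun v => ‖β v‖) ⁻¹' (Iio ρ2) := rfl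
    rw [this]
    exact hbc.norm.isOpen_inter_preimage isOpen_ball isOpen_Iio
  by_cases hv2 : ‖β v‖ < ρ2
  · have e1 : φ =ᶠ[𝓝 v] φ0 := by
      filter_upwards [hO.mem_nhds ⟨hv, hv2⟩] with w hw
      exact hB w hw.1 hw.2
    exact (e1.differentiableAt_iff.2 (h0.differentiableAt (hO.mem_nhds ⟨hv, hv2⟩))).differentiableWithinAt
  · push Not at hv2
    obtain ⟨ζ, hζ, -, rfl⟩ := h.ss hθ hθ1 hv (lt_of_lt_of_le hρ hv2)
    have hsA : AnalyticAt ℂ s ζ := (h.sd hθ).analyticAt ((Qc_open θ).mem_nhds hζ)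
    have hsd : HasStrictDerivAt s (deriv s ζ) ζ := hsA.hasStrictDerivAt
    have hne := h.ds hθ hθ1 hζ
    have hE := hsd.hasStrictFDerivAt_equiv hne
    have e1 := hE.eventually_right_inverse
    have e2 : HasStrictDerivAt (hE.localInverse s _ ζ) (deriv s ζ)⁻¹ (s ζ) := hsd.to_localInverse hne
    have e3 : hE.localInverse s _ ζ (s ζ) = ζ := hE.localInverse_apply_image
    have e4 : Tendsto (hE.localInverse s _ ζ) (𝓝 (s ζ)) (𝓝 ζ) := by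
      have := e2.hasDerivAt.continuousAt.tendsto
      rwa [e3] at this
    have e5 : φ =ᶠ[𝓝 (s ζ)] q ∘ hE.localInverse s _ ζ := by
      filter_upwards [e1, e4.eventually ((Qc_open θ).mem_nhds hζ)] with w hw hw2
      show φ w = q (hE.localInverse s _ ζ w)
      rw [← hA _ hw2, hw]
    have e6 : DifferentiableAt ℂ (q ∘ hE.localInverse s _ ζ) (s ζ) := by
      refine DifferentiableAt.comp _ ?_ e2.hasDerivAt.differentiableAt
      rw [e3]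
      exact hqd.differentiableAt ((Qc_open θ).mem_nhds hζ)
    exact (e5.differentiableAt_iff.2 e6).differentiableWithinAt

end Pool.Agent.H55.PB
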